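import Pool.Agent.Lib.MP_c42713_pr.MGl

/-! # Definitions for the second order (Bochner) argument -/

namespace SKG

variable {n : ℕ}

/-- the local field at `i`: `∑_{j ≠ i} J_ij x_j + h_i` -/
noncomputable def lfd (J : Matrix (Fin n) (Fin n) ℝ) (h : Fin n → ℝ) (i : Fin n) (x : Conf n) : ℝ :=
  (∑ j ∈ Finset.univ.erase i, J i j * sg (x j)) + h i

/-- conditional expectation of `x_i` given the other spins -/
noncomputable def th (J : Matrix (Fin n) (Fin n) ℝ) (h : Fin n → ℝ) (i : Fin n) (x : Conf n) : ℝ :=
  Real.tanh (lfd J h i x)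

/-- conditional variance of `x_i` given the other spins -/
noncomputable def sc (J : Matrix (Fin n) (Fin n) ℝ) (h : Fin n → ℝ) (i : Fin n) (x : Conf n) : ℝ :=
  1 - th J h i x ^ 2

/-- discrete derivative -/
noncomputable def Dd (f : Conf n → ℝ) (i : Fin n) (x : Conf n) : ℝ :=
  (f (Function.update x i true) - f (Function.update x i false)) / 2

end SKG
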