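import Pool.Agent.Lib.MP_c42713_pr.RGood

/-!
# all entries of GOE are small

As the diagonal part of `RRow_row` in MP_c42713_pr/RRow.lean: `n * goe n g i j ^ 2 = g p ^ 2` (or `2 g p ^ 2` for `i = j`), `p = (i, j)` or `(j, i)`; `chern_up` (RChern) with `c = 1` at `p`, 0 elsewhere, `θ = 1/8`, gives
`P(η < |goe n g i j|) ≤ exp (1 - η² n / 32)`; union bound over `n²` pairs; `n² exp (1 - b n) → 0`.
`good_meas'`: as `good_meas` (RGood; `RGood_cont` is public).
-/

namespace SKG

open MeasureTheory ProbabilityTheory Filter Topology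

private def HEnt_e {n : ℕ} (j k : Fin n) : Fin n × Fin n :=
  if j = k then (j, j) else if j < k then (j, k) else (k, j)

private theorem HEnt_goe {n : ℕ} (hn : 0 < n) (g : Smp n) (j k : Fin n) :
    (n : ℝ) * goe n g j k ^ 2 ≤ 2 * g (HEnt_e j k) ^ 2 := by
  have hn' : (0 : ℝ) < n := by exact_mod_cast hn
  have hs : Real.sqrt n ^ 2 = (n : ℝ) := Real.sq_sqrt hn'.le
  have hs2 : Real.sqrt (2 / n) ^ 2 = 2 / (n : ℝ) := Real.sq_sqrt (by positivity)
  have hd : ∀ x : ℝ, (n : ℝ) * (x / Real.sqrt n) ^ 2 ≤ 2 * x ^ 2 := by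
    intro x
    have h1 : (n : ℝ) * (x / Real.sqrt n) ^ 2 = x ^ 2 := by
      rw [div_pow, hs]
      field_simp
    rw [h1]
    nlinarith [sq_nonneg x]
  unfold goe HEnt_e
  by_cases h : j = k
  · subst h
    rw [if_pos rfl, if_pos rfl, mul_pow, hs2]
    refine le_of_eq ?_
    field_simp
  · rw [if_neg h, if_neg h]
    by_cases h1 : j < k
    · rw [if_pos h1, if_pos h1]
      exact hd _
    · rw [if_neg h1, if_neg h1]
      exact hd _

/-- one entry -/
private theorem HEnt_one {n : ℕ} (hn : 0 < n) (j k : Fin n) {η : ℝ} (h0 : 0 < η) :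
    gauss n {g | η < |goe n g j k|} ≤ ENNReal.ofReal (Real.exp (1 - η ^ 2 / 32 * n)) := by
  have hn' : (0 : ℝ) < n := by exact_mod_cast hn
  have hηn : 0 ≤ η ^ 2 * n := by positivity
  have e1 := chern_up (ι := Fin n × Fin n) (fun p => if p = HEnt_e j k then (1 : ℝ) else 0)
    (fun p => by split_ifs <;> norm_num) (fun p => by split_ifs <;> norm_num) (1 / 8)
    (by norm_num) le_rfl (η ^ 2 * n / 2)
  have e2 : ∑ p : Fin n × Fin n, (if p = HEnt_e j k then (1 : ℝ) else 0) = 1 := by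
    rw [Finset.sum_ite_eq' Finset.univ (HEnt_e j k), if_pos (Finset.mem_univ _)]
  have e3 : ∑ p : Fin n × Fin n, (if p = HEnt_e j k then (1 : ℝ) else 0) ^ 2 = 1 := by
    have : ∀ p : Fin n × Fin n, (if p = HEnt_e j k then (1 : ℝ) else 0) ^ 2
        = if p = HEnt_e j k then (1 : ℝ) else 0 := fun p => by split_ifs <;> norm_num
    rw [Finset.sum_congr rfl fun p _ => this p, e2]
  rw [e2, e3] at e1
  refine le_trans (measure_mono ?_) (e1.trans (ENNReal.ofReal_le_ofReal ?_))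
  · intro g hg
    have hg' : η < |goe n g j k| := hg
    show η ^ 2 * n / 2 ≤ ∑ p : Fin n × Fin n, (if p = HEnt_e j k then (1 : ℝ) else 0) * g p ^ 2
    have e4 : ∑ p : Fin n × Fin n, (if p = HEnt_e j k then (1 : ℝ) else 0) * g p ^ 2
        = g (HEnt_e j k) ^ 2 := by
      simp only [ite_mul, one_mul, zero_mul]
      rw [Finset.sum_ite_eq' Finset.univ (HEnt_e j k), if_pos (Finset.mem_univ _)]
    rw [e4]
    have e5 := HEnt_goe hn g j k
    have e7 : η ^ 2 ≤ goe n g j k ^ 2 := by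
      rw [← sq_abs (goe n g j k)]
      exact pow_le_pow_left₀ h0.le hg'.le 2
    have e8 : (n : ℝ) * η ^ 2 ≤ n * goe n g j k ^ 2 := mul_le_mul_of_nonneg_left e7 hn'.le
    linarith
  · refine Real.exp_le_exp.2 ?_
    norm_num
    linarith

private theorem HEnt_tendsto {b : ℝ} (hb : 0 < b) :
    Tendsto (fun n : ℕ => ENNReal.ofReal ((n : ℝ) ^ 2 * Real.exp (1 - b * n))) atTop (𝓝 0) := by
  have h1 : Tendsto (fun x : ℝ => x ^ 2 * Real.exp (-x)) atTop (𝓝 0) :=
    Real.tendsto_pow_mul_exp_neg_atTop_nhds_zero 2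
  have h2 : Tendsto (fun n : ℕ => b * (n : ℝ)) atTop atTop :=
    tendsto_natCast_atTop_atTop.const_mul_atTop hb
  have h3 := (h1.comp h2).const_mul (Real.exp 1 / b ^ 2)
  rw [mul_zero] at h3
  have h4 : (fun n : ℕ => Real.exp 1 / b ^ 2 * ((fun x : ℝ => x ^ 2 * Real.exp (-x))
      ∘ fun n : ℕ => b * (n : ℝ)) n) = fun n : ℕ => (n : ℝ) ^ 2 * Real.exp (1 - b * n) := by
    funext n
    simp only [Function.comp]
    rw [sub_eq_add_neg, Real.exp_add]
    field_simp
  rw [h4] at h3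
  have h5 := ENNReal.tendsto_ofReal h3
  rwa [ENNReal.ofReal_zero] at h5

theorem goe_entries (ε : ℝ) (hε : 0 < ε) :
    ∃ p : ℕ → ENNReal, Tendsto p atTop (𝓝 0) ∧ ∀ n, 4 ≤ n →
      gauss n {g | ∃ i j, ε < |goe n g i j|} ≤ p n := by
  refine ⟨fun n : ℕ => ENNReal.ofReal ((n : ℝ) ^ 2 * Real.exp (1 - ε ^ 2 / 32 * n)),
    HEnt_tendsto (by positivity), ?_⟩
  intro n hn
  have hsub : {g : Smp n | ∃ i j, ε < |goe n g i j|} ⊆
      ⋃ p : Fin n × Fin n, {g | ε < |goe n g p.1 p.2|} := by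
    intro g hg
    obtain ⟨i, j, hj⟩ := hg
    rw [Set.mem_iUnion]
    exact ⟨(i, j), hj⟩
  calc gauss n {g : Smp n | ∃ i j, ε < |goe n g i j|}
      ≤ _ := measure_mono hsub
    _ ≤ _ := measure_iUnion_fintype_le _ _
    _ ≤ ∑ _p : Fin n × Fin n, ENNReal.ofReal (Real.exp (1 - ε ^ 2 / 32 * n)) :=
        Finset.sum_le_sum fun p _ => HEnt_one (by omega) p.1 p.2 hε
    _ = ENNReal.ofReal ((n : ℝ) ^ 2 * Real.exp (1 - ε ^ 2 / 32 * n)) := by
        rw [Finset.sum_const, Finset.card_univ, Fintype.card_prod, Fintype.card_fin, nsmul_eq_mul,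
          ENNReal.ofReal_mul (by positivity), ← Nat.cast_pow, ENNReal.ofReal_natCast, sq n]

/-- the good event with small entries is measurable -/
theorem good_meas' (n : ℕ) (ε : ℝ) :
    MeasurableSet {g : Smp n | Good (goe n g) ε ∧ ∀ i j, |goe n g i j| ≤ ε} := by
  have h : {g : Smp n | Good (goe n g) ε ∧ ∀ i j, |goe n g i j| ≤ ε} =
      {g : Smp n | Good (goe n g) ε} ∩ {g : Smp n | ∀ i j, |goe n g i j| ≤ ε} := by
    ext g
    exact Iff.rfl
  rw [h]
  refine (good_meas n ε).inter (IsClosed.measurableSet ?_)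
  rw [Set.ofPred_forall]
  refine isClosed_iInter fun i => ?_
  rw [Set.ofPred_forall]
  exact isClosed_iInter fun j => isClosed_le (RGood_cont n i j).abs continuous_const

/-- its probability tends to one -/
theorem good_prob' (ε : ℝ) (hε : 0 < ε) :
    Tendsto (fun n => gauss n {g | Good (goe n g) ε ∧ ∀ i j, |goe n g i j| ≤ ε}) atTop (𝓝 1) := by
  obtain ⟨p, hp, hpn⟩ := goe_norm ε hε
  obtain ⟨q, hq, hqn⟩ := goe_rows ε hε
  obtain ⟨r, hr, hrn⟩ := goe_entries ε hε
  have hlow : Tendsto (fun n => 1 - (p n + q n + r n)) atTop (𝓝 (1 : ENNReal)) := by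
    have h1 := ENNReal.Tendsto.sub (tendsto_const_nhds (x := (1 : ENNReal)) (f := atTop (α := ℕ)))
      ((hp.add hq).add hr) (Or.inl ENNReal.one_ne_top)
    simpa using h1
  refine tendsto_of_tendsto_of_tendsto_of_le_of_le' hlow tendsto_const_nhds ?_ ?_
  · filter_upwards [eventually_ge_atTop 4] with n hn
    have hcompl : gauss n {g | Good (goe n g) ε ∧ ∀ i j, |goe n g i j| ≤ ε}ᶜ
        ≤ p n + q n + r n := by
      refine (measure_mono ?_).trans ((measure_union_le _ _).trans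
        (add_le_add ((measure_union_le _ _).trans
          (add_le_add (hpn n hn) (hqn n hn))) (hrn n hn)))
      intro g hg
      by_contra hno
      apply hg
      rw [Set.mem_union, Set.mem_union, not_or, not_or] at hno
      obtain ⟨⟨h1, h2⟩, h3⟩ := hno
      simp only [Set.mem_ofPred_eq, not_not] at h1
      simp only [Set.mem_ofPred_eq, not_exists, not_or, not_lt] at h2
      simp only [Set.mem_ofPred_eq, not_exists, not_lt] at h3
      exact ⟨⟨RGood_symm n g, h1, fun j => (h2 j).1, fun j => (h2 j).2⟩, h3⟩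
    have h3 := prob_compl_eq_one_sub (μ := gauss n) (good_meas' n ε).compl
    rw [compl_compl] at h3
    rw [h3]
    exact tsub_le_tsub_left hcompl 1
  · exact Eventually.of_forall fun n => prob_le_one

end SKG
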