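import Pool.Agent.Lib.MP_c42713_pr.G2TwoE

/-!
# The two spin inequality, in the form used for the second order argument
-/

namespace SKG

/-- the summand with exponential weight -/
noncomputable def eF (a b J c1 c2 c12 x y : ℝ) : ℝ :=
  Real.exp (a * x + b * y + J * x * y) *
    ((x - Real.tanh (a + J * y)) * (y - Real.tanh (b + J * x)) * ((c1 + c12 * y) * (c2 + c12 * x)) +
    J * ((1 - Real.tanh (a + J * y) ^ 2) * (1 - Real.tanh (b + J * x) ^ 2) *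
      ((c1 + c12 * y) * (c2 + c12 * x))) +
    J ^ 2 * (Real.tanh (a + J * y) ^ 2 * (1 - Real.tanh (a + J * y) ^ 2) * (c1 + c12 * y) ^ 2 +
      Real.tanh (b + J * x) ^ 2 * (1 - Real.tanh (b + J * x) ^ 2) * (c2 + c12 * x) ^ 2) +
    40 * |J| ^ 3 * ((1 - Real.tanh (a + J * y) ^ 2) * (c1 + c12 * y) ^ 2 +
      (1 - Real.tanh (b + J * x) ^ 2) * (c2 + c12 * x) ^ 2))

private theorem HExp_pt (E J X Y t1 t2 c x y : ℝ) (hE : 0 < E) (h1 : t1 ^ 2 < 1) (h2 : t2 ^ 2 < 1) :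
    E * (((x - t1) * X) * ((y - t2) * Y)) -
      E * (-J * ((1 - t1 ^ 2) * X) * ((1 - t2 ^ 2) * Y)
       - J ^ 2 * ((1 - t1 ^ 2) * (1 - t2 ^ 2)) * (t1 ^ 2 * X ^ 2 + t2 ^ 2 * Y ^ 2)
       + 1 / 2 * c ^ 2 * ((1 - t1 ^ 2) * (1 - t2 ^ 2))
       - 40 * |J| ^ 3 * ((1 - t1 ^ 2) * (1 - t2 ^ 2)) * (X ^ 2 + Y ^ 2)) ≤
    E * ((x - t1) * (y - t2) * (X * Y) + J * ((1 - t1 ^ 2) * (1 - t2 ^ 2) * (X * Y)) +
      J ^ 2 * (t1 ^ 2 * (1 - t1 ^ 2) * X ^ 2 + t2 ^ 2 * (1 - t2 ^ 2) * Y ^ 2) +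
      40 * |J| ^ 3 * ((1 - t1 ^ 2) * X ^ 2 + (1 - t2 ^ 2) * Y ^ 2)) := by
  have a1 : 0 ≤ 1 - t1 ^ 2 := by linarith
  have a2 : 0 ≤ 1 - t2 ^ 2 := by linarith
  have k1 : 0 ≤ J ^ 2 * (t1 ^ 2 * (1 - t1 ^ 2) * X ^ 2 * t2 ^ 2) := by positivity
  have k2 : 0 ≤ J ^ 2 * (t2 ^ 2 * (1 - t2 ^ 2) * Y ^ 2 * t1 ^ 2) := by positivity
  have k3 : 0 ≤ 40 * |J| ^ 3 * ((1 - t1 ^ 2) * X ^ 2 * t2 ^ 2) := by positivity
  have k4 : 0 ≤ 40 * |J| ^ 3 * ((1 - t2 ^ 2) * Y ^ 2 * t1 ^ 2) := by positivity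
  have k5 : 0 ≤ 1 / 2 * c ^ 2 * ((1 - t1 ^ 2) * (1 - t2 ^ 2)) := by positivity
  rw [← mul_sub]
  apply mul_le_mul_of_nonneg_left _ hE.le
  linarith

theorem two_spin_exp (a b J c1 c2 c12 : ℝ) (hJ : |J| ≤ 1 / 20) :
    0 ≤ eF a b J c1 c2 c12 1 1 + eF a b J c1 c2 c12 1 (-1) + eF a b J c1 c2 c12 (-1) 1 +
      eF a b J c1 c2 c12 (-1) (-1) := by
  have h := two_spin a b J c1 c2 c12 hJ
  unfold S4 at h
  have p : ∀ x y : ℝ, Real.exp (J * x * y + a * x + b * y) *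
      (((x - Real.tanh (a + J * y)) * (c1 + c12 * y)) * ((y - Real.tanh (b + J * x)) * (c2 + c12 * x))) -
      Real.exp (J * x * y + a * x + b * y) *
      (-J * ((1 - Real.tanh (a + J * y) ^ 2) * (c1 + c12 * y)) *
        ((1 - Real.tanh (b + J * x) ^ 2) * (c2 + c12 * x))
       - J ^ 2 * ((1 - Real.tanh (a + J * y) ^ 2) * (1 - Real.tanh (b + J * x) ^ 2)) *
          (Real.tanh (a + J * y) ^ 2 * (c1 + c12 * y) ^ 2 + Real.tanh (b + J * x) ^ 2 * (c2 + c12 * x) ^ 2)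
       + 1 / 2 * c12 ^ 2 * ((1 - Real.tanh (a + J * y) ^ 2) * (1 - Real.tanh (b + J * x) ^ 2))
       - 40 * |J| ^ 3 * ((1 - Real.tanh (a + J * y) ^ 2) * (1 - Real.tanh (b + J * x) ^ 2)) *
          ((c1 + c12 * y) ^ 2 + (c2 + c12 * x) ^ 2)) ≤ eF a b J c1 c2 c12 x y := by
    intro x y
    have q := HExp_pt (Real.exp (J * x * y + a * x + b * y)) J (c1 + c12 * y) (c2 + c12 * x)
      (Real.tanh (a + J * y)) (Real.tanh (b + J * x)) c12 x y (Real.exp_pos _)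
      (Real.tanh_sq_lt_one _) (Real.tanh_sq_lt_one _)
    have e : a * x + b * y + J * x * y = J * x * y + a * x + b * y := by ring
    unfold eF
    rw [e]
    exact q
  have p1 := p 1 1
  have p2 := p 1 (-1)
  have p3 := p (-1) 1
  have p4 := p (-1) (-1)
  linarith

end SKG
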