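import Pool.Agent.Lib.MP_c42713_pr.MGap
import Pool.Agent.Lib.MP_c42713_pr.MClip
import Pool.Agent.Lib.MP_c42713_pr.MStat

/-!
# from the Poincare inequality to mixing in `O(n^3)` steps, for all fields

* `mix_numH`: as `mix_num` in MP_c42713_pr/MNum.lean: `(1 - 1/(n M))^(K n^3) ≤ exp (-(K n^2 / M)) ≤ exp (-(5 n^2))`, `exp (-(5 n²)) / m ≤ exp (-n²) ≤ 1/64`; `K n^3 exp (-n) → 0`.
* `mixH`: as `mix_good` in MP_c42713_pr/MDet.lean (second half): clip the fields at `n` (`clip`, `kernel_clip`), `gibbs_min`, `tv_gap`, `glauber_*`, `stat_compare` with `δ = exp (-n)`, `η = 1/16`.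
-/

namespace SKG

variable {n : ℕ}

theorem mix_numH (M : ℝ) (hM : 1 ≤ M) (K : ℕ) (hK : 5 * M ≤ K) : ∃ n0 : ℕ, ∀ n : ℕ, n0 ≤ n →
    ∀ m : ℝ, Real.exp (-(4 * (n : ℝ) ^ 2)) ≤ m →
    Real.sqrt ((1 - 1 / (n * M)) ^ (K * n ^ 3) / m) / 2 ≤ 1 / 16 ∧
    ((K * n ^ 3 : ℕ) : ℝ) * Real.exp (-n) ≤ 1 / 16 := by
  have hK0 : (0 : ℝ) < K := by linarith
  have h1 : ∀ᶠ x : ℝ in Filter.atTop, x ^ 3 * Real.exp (-x) < 1 / (16 * K) :=
    (Real.tendsto_pow_mul_exp_neg_atTop_nhds_zero 3).eventually_lt_const (by positivity)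
  obtain ⟨n1, hn1⟩ := Filter.eventually_atTop.mp ((tendsto_natCast_atTop_atTop (R := ℝ)).eventually h1)
  refine ⟨max n1 8, fun n hn m hm => ⟨?_, ?_⟩⟩
  · have hn8 : 8 ≤ n := le_trans (le_max_right _ _) hn
    have hN : (8 : ℝ) ≤ n := by exact_mod_cast hn8
    have hN0 : (0 : ℝ) < n := by linarith
    have hM0 : (0 : ℝ) < n * M := by positivity
    have hb0 : 0 ≤ 1 - 1 / ((n : ℝ) * M) := by
      have h2 : 1 / ((n : ℝ) * M) ≤ 1 := by
        rw [div_le_one hM0]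
        nlinarith
      linarith
    have hb1 : 1 - 1 / ((n : ℝ) * M) ≤ Real.exp (-(1 / ((n : ℝ) * M))) := Real.one_sub_le_exp_neg _
    have hpow : (1 - 1 / ((n : ℝ) * M)) ^ (K * n ^ 3) ≤ Real.exp (-(5 * (n : ℝ) ^ 2)) := by
      refine le_trans (pow_le_pow_left₀ hb0 hb1 _) ?_
      rw [← Real.exp_nat_mul]
      apply Real.exp_le_exp.mpr
      have hcast : ((K * n ^ 3 : ℕ) : ℝ) = K * (n : ℝ) ^ 3 := by
        push_cast
        rfl
      rw [hcast, mul_neg, neg_le_neg_iff, mul_one_div, le_div_iff₀ hM0]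
      have h4 : 5 * (n : ℝ) ^ 2 * (n * M) = (n : ℝ) ^ 3 * (5 * M) := by ring
      rw [h4, mul_comm (K : ℝ)]
      exact mul_le_mul_of_nonneg_left hK (by positivity)
    have hm0 : 0 < m := lt_of_lt_of_le (Real.exp_pos _) hm
    have hx : (1 - 1 / ((n : ℝ) * M)) ^ (K * n ^ 3) / m ≤ (1 / 8) ^ 2 := by
      rw [div_le_iff₀ hm0]
      refine le_trans hpow ?_
      have h5 : Real.exp (-(5 * (n : ℝ) ^ 2)) =
          Real.exp (-((n : ℝ) ^ 2)) * Real.exp (-(4 * (n : ℝ) ^ 2)) := by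
        rw [← Real.exp_add]
        congr 1
        ring
      rw [h5]
      have h6 : Real.exp (-((n : ℝ) ^ 2)) ≤ (1 / 8) ^ 2 := by
        rw [Real.exp_neg]
        have h7 : 64 ≤ Real.exp ((n : ℝ) ^ 2) := by
          have h8 : (n : ℝ) ^ 2 + 1 ≤ Real.exp ((n : ℝ) ^ 2) := Real.add_one_le_exp _
          nlinarith
        calc (Real.exp ((n : ℝ) ^ 2))⁻¹ ≤ (64 : ℝ)⁻¹ := inv_anti₀ (by norm_num) h7
          _ = (1 / 8) ^ 2 := by norm_num
      exact mul_le_mul h6 hm (Real.exp_pos _).le (by norm_num)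
    have hs : Real.sqrt ((1 - 1 / ((n : ℝ) * M)) ^ (K * n ^ 3) / m) ≤ 1 / 8 :=
      Real.sqrt_le_iff.mpr ⟨by norm_num, hx⟩
    linarith
  · have hnn1 : n1 ≤ n := le_trans (le_max_left _ _) hn
    have h2 := hn1 n hnn1
    have h3 : ((K * n ^ 3 : ℕ) : ℝ) * Real.exp (-n) = K * ((n : ℝ) ^ 3 * Real.exp (-n)) := by
      push_cast
      ring
    rw [h3]
    have h4 := mul_le_mul_of_nonneg_left h2.le hK0.le
    have h5 : (K : ℝ) * (1 / (16 * K)) = 1 / 16 := by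
      field_simp
    rw [h5] at h4
    exact h4

theorem mixH (M : ℝ) (hM : 1 ≤ M) (K : ℕ) (hK : 5 * M ≤ K) : ∃ n0 : ℕ, ∀ n : ℕ, n0 ≤ n →
    ∀ J : Matrix (Fin n) (Fin n) ℝ, J.IsSymm → (∀ i, ∑ j, |J i j| ≤ (n : ℝ) / 2) →
    (∀ (h : Fin n → ℝ) (f : Conf n → ℝ),
      FS (gibbs J h) Finset.univ f ≤ M * ∑ i, FS (gibbs J h) {i} f) →
    ∀ h : Fin n → ℝ, MixLE J h ((K : ℝ) * (n : ℝ) ^ 3) := by
  obtain ⟨n0, hn0⟩ := mix_numH M hM K hK
  refine ⟨max n0 1, fun n hn J hsym e2 hP h => ?_⟩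
  have hnpos : 0 < n := lt_of_lt_of_le Nat.zero_lt_one (le_trans (le_max_right _ _) hn)
  have hn2 : n0 ≤ n := le_trans (le_max_left _ _) hn
  refine ⟨K * n ^ 3, by push_cast; exact le_rfl, fun x => ?_⟩
  obtain ⟨h', hh'⟩ : ∃ h', h' = clip (n : ℝ) h := ⟨_, rfl⟩
  have hclip : ∀ i, |h' i| ≤ n := by
    intro i
    rw [hh', abs_le]
    unfold clip
    have hnn : (0 : ℝ) ≤ n := by positivity
    exact ⟨le_max_left _ _, max_le (by linarith) (min_le_right _ _)⟩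
  have hgap := fun (x : Conf n) => tv_gap hnpos (gibbs_pos J h') (gibbs_sum J h') M hM
    (hP h') (K * n ^ 3) x
  have hnum := fun (x : Conf n) => hn0 n hn2 (gibbs J h' x) (gibbs_min J h' e2 hclip x)
  have hη : ∀ x, tv ((glauber (gibbs J h') ^ (K * n ^ 3)) x) (gibbs J h') ≤ 1 / 16 :=
    fun x => le_trans (hgap x) (hnum x).1
  have hker : ∀ x : Conf n, ∑ y, |glauber (gibbs J h) x y - glauber (gibbs J h') x y| ≤
      2 * Real.exp (-n) := by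
    rw [hh']
    exact kernel_clip hnpos J hsym h e2
  have hst := stat_compare (glauber (gibbs J h)) (glauber (gibbs J h'))
    (glauber_nonneg (gibbs_pos _ _)) (glauber_row hnpos (gibbs_pos _ _))
    (glauber_nonneg (gibbs_pos _ _)) (glauber_row hnpos (gibbs_pos _ _))
    (gibbs J h) (gibbs J h') (fun x => (gibbs_pos _ _ x).le) (gibbs_sum _ _)
    (glauber_stat hnpos (gibbs_pos _ _)) (Real.exp (-n)) (1 / 16)
    hker (K * n ^ 3) hη x
  have h9 := (hnum x).2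
  refine le_trans hst ?_
  have h10 : 2 * ((K * n ^ 3 : ℕ) : ℝ) * Real.exp (-n) =
      2 * (((K * n ^ 3 : ℕ) : ℝ) * Real.exp (-n)) := by ring
  rw [h10]
  linarith

end SKG
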