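import Pool.Agent.Lib.MP_c42713_pr.MGap

/-! # Poincare inequality from an `L^2` bound of the generator -/

namespace SKG

variable {n : ℕ}

/-- minus the generator of the heat bath dynamics -/
noncomputable def HPoin_LL (μ : Conf n → ℝ) (f : Conf n → ℝ) (x : Conf n) : ℝ :=
  ∑ i, (f x - cE μ {i} f x)

theorem HPoin_cE_add (μ : Conf n → ℝ) (T : Finset (Fin n)) (f g : Conf n → ℝ) (x : Conf n) :
    cE μ T (fun y => f y + g y) x = cE μ T f x + cE μ T g x := Ex_add _ _ _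

theorem HPoin_cE_smul (μ : Conf n → ℝ) (T : Finset (Fin n)) (c : ℝ) (f : Conf n → ℝ) (x : Conf n) :
    cE μ T (fun y => c * f y) x = c * cE μ T f x := Ex_smul _ _ _

theorem HPoin_cE_const {μ : Conf n → ℝ} (hμ : ∀ x, 0 < μ x) (T : Finset (Fin n)) (c : ℝ) (x : Conf n) :
    cE μ T (fun _ => c) x = c := Ex_const (isW_pw hμ T x) c

theorem HPoin_cE_shift {μ : Conf n → ℝ} (hμ : ∀ x, 0 < μ x) (T : Finset (Fin n)) (c : ℝ)
    (f : Conf n → ℝ) (x : Conf n) : cE μ T (fun y => f y - c) x = cE μ T f x - c := by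
  have h1 : cE μ T (fun y => f y - c) x = cE μ T f x - cE μ T (fun _ => c) x := Ex_sub _ _ _
  rw [h1, HPoin_cE_const hμ]

theorem HPoin_FS_shift {μ : Conf n → ℝ} (hμ : ∀ x, 0 < μ x) (T : Finset (Fin n)) (c : ℝ)
    (f : Conf n → ℝ) : FS μ T (fun y => f y - c) = FS μ T f := by
  unfold FS
  refine Finset.sum_congr rfl fun x _ => ?_
  rw [HPoin_cE_shift hμ]
  ring

/-- integration by parts -/
theorem HPoin_ibp {μ : Conf n → ℝ} (hμ : ∀ x, 0 < μ x) (f g : Conf n → ℝ) :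
    ∑ x, μ x * (f x * HPoin_LL μ g x) =
      ∑ i, ∑ x, μ x * ((f x - cE μ {i} f x) * (g x - cE μ {i} g x)) := by
  have h1 : ∀ i : Fin n, ∑ x, μ x * ((f x - cE μ {i} f x) * (g x - cE μ {i} g x)) =
      ∑ x, μ x * (f x * (g x - cE μ {i} g x)) := by
    intro i
    have e := sum_cE_mul hμ {i} g (cE μ {i} f) (fun x y hxy => cE_congr μ {i} f hxy)
    have e2 : ∑ x, μ x * ((f x - cE μ {i} f x) * (g x - cE μ {i} g x)) =
        ∑ x, μ x * (f x * (g x - cE μ {i} g x)) +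
          (∑ x, μ x * (cE μ {i} g x * cE μ {i} f x) - ∑ x, μ x * (g x * cE μ {i} f x)) := by
      rw [← Finset.sum_sub_distrib, ← Finset.sum_add_distrib]
      exact Finset.sum_congr rfl fun x _ => by ring
    rw [e2, e]
    ring
  rw [Finset.sum_congr rfl fun i _ => h1 i, Finset.sum_comm]
  refine Finset.sum_congr rfl fun x _ => ?_
  unfold HPoin_LL
  rw [Finset.mul_sum, Finset.mul_sum]

theorem HPoin_ibp_self {μ : Conf n → ℝ} (hμ : ∀ x, 0 < μ x) (f : Conf n → ℝ) :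
    ∑ x, μ x * (f x * HPoin_LL μ f x) = ∑ i, FS μ {i} f := by
  rw [HPoin_ibp hμ]
  refine Finset.sum_congr rfl fun i _ => ?_
  unfold FS
  exact Finset.sum_congr rfl fun x _ => by ring

theorem HPoin_FS_nonneg {μ : Conf n → ℝ} (hμ : ∀ x, 0 < μ x) (T : Finset (Fin n)) (f : Conf n → ℝ) :
    0 ≤ FS μ T f :=
  Finset.sum_nonneg fun x _ => mul_nonneg (hμ x).le (sq_nonneg _)

/-- a function in the kernel of the generator is constant -/
theorem HPoin_LL_ker {μ : Conf n → ℝ} (hμ : ∀ x, 0 < μ x) (f : Conf n → ℝ) (hf : ∀ x, HPoin_LL μ f x = 0)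
    (x y : Conf n) : f x = f y := by
  have h0 : ∑ i, FS μ {i} f = 0 := by
    rw [← HPoin_ibp_self hμ]
    exact Finset.sum_eq_zero fun x _ => by rw [hf x]; ring
  have h1 : ∀ i : Fin n, FS μ {i} f = 0 := fun i =>
    (Finset.sum_eq_zero_iff_of_nonneg fun i _ => HPoin_FS_nonneg hμ {i} f).1 h0 i (Finset.mem_univ i)
  have h2 : ∀ (i : Fin n) (z : Conf n), f z = cE μ {i} f z := by
    intro i z
    have h3 := (Finset.sum_eq_zero_iff_of_nonneg
      fun x _ => mul_nonneg (hμ x).le (sq_nonneg (f x - cE μ {i} f x))).1 (h1 i) z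
      (Finset.mem_univ z)
    have h4 : (f z - cE μ {i} f z) ^ 2 = 0 := by
      rcases mul_eq_zero.1 h3 with h | h
      · exact absurd h (hμ z).ne'
      · exact h
    have h5 := pow_eq_zero_iff (two_ne_zero) |>.1 h4
    linarith
  have h3 : ∀ (i : Fin n) (z : Conf n) (b : Bool), f (Function.update z i b) = f z := by
    intro i z b
    rw [h2 i (Function.update z i b), h2 i z]
    refine cE_congr μ {i} f fun k hk => ?_
    rw [Finset.mem_singleton] at hk
    exact Function.update_of_ne hk _ _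
  have h4 : ∀ s : Finset (Fin n), f (fun i => if i ∈ s then y i else x i) = f x := by
    intro s
    induction s using Finset.induction_on with
    | empty => simp
    | insert a s ha ih =>
      rw [← ih, ← h3 a (fun i => if i ∈ s then y i else x i) (y a)]
      congr 1
      funext i
      by_cases hi : i = a
      · subst hi
        simp
      · rw [Function.update_of_ne hi]
        simp [Finset.mem_insert, hi]
  have h5 := h4 Finset.univ
  simp only [Finset.mem_univ, if_true] at h5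
  exact h5.symm

/-- the generator plus the mean, as a linear map -/
noncomputable def HPoin_LB (μ : Conf n → ℝ) : (Conf n → ℝ) →ₗ[ℝ] (Conf n → ℝ) where
  toFun f := fun x => HPoin_LL μ f x + ∑ y, μ y * f y
  map_add' f g := by
    funext x
    have h1 : ∀ i : Fin n, cE μ {i} (f + g) x = cE μ {i} f x + cE μ {i} g x :=
      fun i => HPoin_cE_add μ {i} f g x
    have h2 : HPoin_LL μ (f + g) x = HPoin_LL μ f x + HPoin_LL μ g x := by
      unfold HPoin_LL
      rw [← Finset.sum_add_distrib]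
      refine Finset.sum_congr rfl fun i _ => ?_
      rw [h1 i, Pi.add_apply]
      ring
    have h3 : ∑ y, μ y * (f + g) y = ∑ y, μ y * f y + ∑ y, μ y * g y := by
      rw [← Finset.sum_add_distrib]
      exact Finset.sum_congr rfl fun y _ => by rw [Pi.add_apply]; ring
    show HPoin_LL μ (f + g) x + ∑ y, μ y * (f + g) y = (HPoin_LL μ f x + ∑ y, μ y * f y) +
      (HPoin_LL μ g x + ∑ y, μ y * g y)
    rw [h2, h3]
    ring
  map_smul' c f := by
    funext x
    have h1 : ∀ i : Fin n, cE μ {i} (c • f) x = c * cE μ {i} f x :=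
      fun i => HPoin_cE_smul μ {i} c f x
    have h2 : HPoin_LL μ (c • f) x = c * HPoin_LL μ f x := by
      unfold HPoin_LL
      rw [Finset.mul_sum]
      refine Finset.sum_congr rfl fun i _ => ?_
      rw [h1 i, Pi.smul_apply, smul_eq_mul]
      ring
    have h3 : ∑ y, μ y * (c • f) y = c * ∑ y, μ y * f y := by
      rw [Finset.mul_sum]
      exact Finset.sum_congr rfl fun y _ => by rw [Pi.smul_apply, smul_eq_mul]; ring
    show HPoin_LL μ (c • f) x + ∑ y, μ y * (c • f) y = c • (HPoin_LL μ f x + ∑ y, μ y * f y)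
    rw [h2, h3, smul_eq_mul]
    ring

theorem HPoin_LL_mean {μ : Conf n → ℝ} (hμ : ∀ x, 0 < μ x) (f : Conf n → ℝ) :
    ∑ x, μ x * HPoin_LL μ f x = 0 := by
  have h := HPoin_ibp hμ (fun _ => (1 : ℝ)) f
  simp only [one_mul] at h
  rw [h]
  refine Finset.sum_eq_zero fun i _ => Finset.sum_eq_zero fun x _ => ?_
  rw [HPoin_cE_const hμ]
  ring

theorem HPoin_LB_mean {μ : Conf n → ℝ} (hμ : ∀ x, 0 < μ x) (hs : ∑ x, μ x = 1) (f : Conf n → ℝ) :
    ∑ x, μ x * HPoin_LB μ f x = ∑ x, μ x * f x := by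
  have h1 : ∀ x, μ x * HPoin_LB μ f x = μ x * HPoin_LL μ f x + μ x * ∑ y, μ y * f y := by
    intro x
    show μ x * (HPoin_LL μ f x + ∑ y, μ y * f y) = _
    ring
  rw [Finset.sum_congr rfl fun x _ => h1 x, Finset.sum_add_distrib, HPoin_LL_mean hμ, zero_add,
    ← Finset.sum_mul, hs, one_mul]

theorem HPoin_LB_inj {μ : Conf n → ℝ} (hμ : ∀ x, 0 < μ x) (hs : ∑ x, μ x = 1) :
    Function.Injective (HPoin_LB μ) := by
  rw [← LinearMap.ker_eq_bot, LinearMap.ker_eq_bot']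
  intro f hf
  have h0 : ∑ x, μ x * f x = 0 := by
    rw [← HPoin_LB_mean hμ hs f, hf]
    simp
  have h1 : ∀ x, HPoin_LL μ f x = 0 := by
    intro x
    have h2 : HPoin_LL μ f x + ∑ y, μ y * f y = 0 := congrFun hf x
    rw [h0, add_zero] at h2
    exact h2
  funext x
  have h2 : ∀ y, f y = f x := fun y => HPoin_LL_ker hμ f h1 y x
  have h3 : ∑ y, μ y * f y = f x := by
    rw [Finset.sum_congr rfl fun y _ => by rw [h2 y], ← Finset.sum_mul, hs, one_mul]
  rw [← h3, h0]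
  rfl

/-- the Poisson equation can be solved -/
theorem HPoin_poisson {μ : Conf n → ℝ} (hμ : ∀ x, 0 < μ x) (hs : ∑ x, μ x = 1) (f : Conf n → ℝ)
    (hf : ∑ x, μ x * f x = 0) : ∃ g : Conf n → ℝ, ∀ x, HPoin_LL μ g x = f x := by
  obtain ⟨g, hg⟩ := (LinearMap.injective_iff_surjective.1 (HPoin_LB_inj hμ hs)) f
  refine ⟨g, fun x => ?_⟩
  have h0 : ∑ x, μ x * g x = 0 := by
    rw [← HPoin_LB_mean hμ hs g, hg, hf]
  have h1 : HPoin_LL μ g x + ∑ y, μ y * g y = f x := congrFun hg x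
  rw [h0, add_zero] at h1
  exact h1

/-- Poincare inequality from the bound `γ E(f,f) ≤ |L f|^2` -/
theorem HPoin_poin_abs {μ : Conf n → ℝ} (hμ : ∀ x, 0 < μ x) (hs : ∑ x, μ x = 1) {γ : ℝ} (hγ : 0 < γ)
    (H : ∀ f : Conf n → ℝ, γ * ∑ i, FS μ {i} f ≤ ∑ x, μ x * HPoin_LL μ f x ^ 2) (f : Conf n → ℝ) :
    FS μ Finset.univ f ≤ (1 / γ) * ∑ i, FS μ {i} f := by
  obtain ⟨m, hm⟩ : ∃ m : ℝ, m = ∑ x, μ x * f x := ⟨_, rfl⟩
  obtain ⟨F, hF⟩ : ∃ F : Conf n → ℝ, F = fun x => f x - m := ⟨_, rfl⟩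
  have h0 : ∑ x, μ x * F x = 0 := by
    rw [hF]
    simp only [mul_sub]
    rw [Finset.sum_sub_distrib, ← Finset.sum_mul, hs, one_mul, hm]
    ring
  have e1 : FS μ Finset.univ f = ∑ x, μ x * F x ^ 2 := by
    rw [← HPoin_FS_shift hμ Finset.univ m f, ← hF, MGap_FS_univ hs F h0]
  have e2 : ∀ i : Fin n, FS μ {i} f = FS μ {i} F := by
    intro i
    rw [hF, HPoin_FS_shift hμ]
  obtain ⟨g, hg⟩ := HPoin_poisson hμ hs F h0
  have h1 : ∑ x, μ x * F x ^ 2 =
      ∑ i, ∑ x, μ x * ((F x - cE μ {i} F x) * (g x - cE μ {i} g x)) := by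
    rw [← HPoin_ibp hμ]
    exact Finset.sum_congr rfl fun x _ => by rw [hg x]; ring
  have h2 : ∀ i : Fin n, ∑ x, μ x * ((F x - cE μ {i} F x) * (g x - cE μ {i} g x)) ≤
      1 / (2 * γ) * FS μ {i} F + γ / 2 * FS μ {i} g := by
    intro i
    unfold FS
    rw [Finset.mul_sum, Finset.mul_sum, ← Finset.sum_add_distrib]
    refine Finset.sum_le_sum fun x _ => ?_
    have h3 : (F x - cE μ {i} F x) * (g x - cE μ {i} g x) ≤
        1 / (2 * γ) * (F x - cE μ {i} F x) ^ 2 + γ / 2 * (g x - cE μ {i} g x) ^ 2 := by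
      have h4 : 1 / (2 * γ) * (F x - cE μ {i} F x) ^ 2 + γ / 2 * (g x - cE μ {i} g x) ^ 2 -
          (F x - cE μ {i} F x) * (g x - cE μ {i} g x) =
          1 / (2 * γ) * ((F x - cE μ {i} F x) - γ * (g x - cE μ {i} g x)) ^ 2 := by
        field_simp
        ring
      have h5 : 0 ≤ 1 / (2 * γ) * ((F x - cE μ {i} F x) - γ * (g x - cE μ {i} g x)) ^ 2 := by
        positivity
      linarith
    have h6 := mul_le_mul_of_nonneg_left h3 (hμ x).le
    linarith
  have h3 : ∑ x, μ x * F x ^ 2 ≤ 1 / (2 * γ) * ∑ i, FS μ {i} F + γ / 2 * ∑ i, FS μ {i} g := by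
    rw [h1, Finset.mul_sum, Finset.mul_sum, ← Finset.sum_add_distrib]
    exact Finset.sum_le_sum fun i _ => h2 i
  have h4 : γ * ∑ i, FS μ {i} g ≤ ∑ x, μ x * F x ^ 2 := by
    refine (H g).trans (le_of_eq ?_)
    exact Finset.sum_congr rfl fun x _ => by rw [hg x]
  rw [e1, Finset.sum_congr rfl fun i _ => e2 i]
  have h5 : 1 / (2 * γ) * ∑ i, FS μ {i} F = (1 / γ * ∑ i, FS μ {i} F) / 2 := by
    field_simp
  linarith

theorem poinc_of_gamma2 {μ : Conf n → ℝ} (hμ : ∀ x, 0 < μ x) (hs : ∑ x, μ x = 1) (γ : ℝ)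
    (hγ : 0 < γ)
    (h : ∀ f : Conf n → ℝ, γ * ∑ i, FS μ {i} f ≤ ∑ x, μ x * (∑ i, (f x - cE μ {i} f x)) ^ 2)
    (f : Conf n → ℝ) : γ * FS μ Finset.univ f ≤ ∑ i, FS μ {i} f := by
  have h1 := HPoin_poin_abs hμ hs hγ (fun f => h f) f
  rw [one_div_mul_eq_div, le_div_iff₀ hγ] at h1
  linarith

end SKG
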