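import Pool.Agent.Lib.MP_c42713_prH.HSum
import Pool.Agent.Lib.MP_c42713_prH.HPoin
import Pool.Agent.Lib.MP_c42713_prH.HEnt
import Pool.Agent.Lib.MP_c42713_prH.HMix

/-!
# the final theorem

Deterministic part `det_half`: `W` good with `|W i j| ≤ ε`. `J = β W`: `|J i j| ≤ β ε ≤ 1/10`, `∑_{j≠i} J_ij² ≤ β² (1 + ε)`, `∑_{i≠j} J_ij v_i v_j = β (∑ W_ij v_i v_j - ∑ W_ii v_i²) ≤ β (2 + 2 ε) ∑ v²`; `Λ = β (2 + 2 ε)`, `m = β ε`; `2 β² (1 + ε) ≤ Λ` as `β ≤ 1`.
`1 - Λ - 40 Λ m ≥ 1 - 2 β - 22 ε` for `β ≤ 1/2`, `ε ≤ 1/100`. Then `gamma2`, `poinc_of_gamma2`.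
`main_half`: `ε = min (1/100) (min δ ((1-2β)/2) / 22)`, `A n = {g | Good .. ∧ entries ≤ ε}` for `n ≥ n0`, empty else; `M = 2/(1-2β)`, `K = ⌈5 M⌉₊`; row sums `∑ |J i j| ≤ √n β √(1+ε) ≤ n/2` (as `good_entries` in MDet.lean). As `main` in MP_c42713_pr/Main.lean.
-/

namespace SKG

open MeasureTheory ProbabilityTheory Filter Topology

variable {n : ℕ}

private theorem HMain_FS_nonneg (J : Matrix (Fin n) (Fin n) ℝ) (h : Fin n → ℝ) (T : Finset (Fin n))
    (f : Conf n → ℝ) : 0 ≤ FS (gibbs J h) T f := by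
  unfold FS
  exact Finset.sum_nonneg fun x _ => mul_nonneg (gibbs_pos J h x).le (sq_nonneg _)

theorem det_half (β ε : ℝ) (hβ : 0 < β) (hβ1 : β ≤ 1 / 2) (h0 : 0 < ε) (h1 : ε ≤ 1 / 100)
    (W : Matrix (Fin n) (Fin n) ℝ) (hW : Good W ε) (hE : ∀ i j, |W i j| ≤ ε)
    (hγ : 0 < 1 - 2 * β - 22 * ε) (h : Fin n → ℝ) (f : Conf n → ℝ) :
    (1 - 2 * β - 22 * ε) * FS (gibbs (β • W) h) Finset.univ f ≤
      ∑ i, FS (gibbs (β • W) h) {i} f := by
  have hsym : (β • W).IsSymm := by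
    have := hW.symm
    unfold Matrix.IsSymm at this ⊢
    rw [Matrix.transpose_smul, this]
  have hβε : β * ε ≤ 1 / 200 := by
    calc β * ε ≤ (1 / 2) * (1 / 100) := by gcongr
      _ = 1 / 200 := by norm_num
  have hβε0 : 0 < β * ε := mul_pos hβ h0
  have hJ : ∀ i j, i ≠ j → |(β • W) i j| ≤ β * ε := by
    intro i j _
    rw [Matrix.smul_apply, smul_eq_mul, abs_mul, abs_of_pos hβ]
    exact mul_le_mul_of_nonneg_left (hE i j) hβ.le
  have hrow : ∀ i, 2 * ∑ j ∈ Finset.univ.erase i, (β • W) i j ^ 2 ≤ β * (2 + 2 * ε) := by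
    intro i
    have a1 : ∑ j ∈ Finset.univ.erase i, (β • W) i j ^ 2 ≤ ∑ j, (β • W) i j ^ 2 :=
      Finset.sum_le_sum_of_subset_of_nonneg (Finset.erase_subset _ _) (fun _ _ _ => sq_nonneg _)
    have e : ∑ k, ((β • W) i k) ^ 2 = β ^ 2 * ∑ k, W i k ^ 2 := by
      rw [Finset.mul_sum]; refine Finset.sum_congr rfl fun k _ => ?_
      simp [Matrix.smul_apply, mul_pow]
    have a2 := (abs_le.1 (hW.sq i)).2
    have a3 : ∑ k, W i k ^ 2 ≤ 1 + ε := by linarith
    have a4 : β ^ 2 * ∑ k, W i k ^ 2 ≤ β ^ 2 * (1 + ε) := mul_le_mul_of_nonneg_left a3 (sq_nonneg _)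
    have a5 : β ^ 2 ≤ β := by nlinarith
    have a6 : β ^ 2 * (1 + ε) ≤ β * (1 + ε) := mul_le_mul_of_nonneg_right a5 (by linarith)
    rw [e] at a1
    nlinarith
  have hspec : ∀ v : Fin n → ℝ, ∑ i, ∑ j ∈ Finset.univ.erase i, (β • W) i j * v i * v j ≤
      β * (2 + 2 * ε) * ∑ i, v i ^ 2 := by
    intro v
    have e1 : ∀ i, ∑ j ∈ Finset.univ.erase i, (β • W) i j * v i * v j =
        β * (∑ j, W i j * v i * v j) - β * (W i i * v i ^ 2) := by
      intro i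
      have := Finset.sum_erase_add (Finset.univ : Finset (Fin n)) (fun j => (β • W) i j * v i * v j)
        (Finset.mem_univ i)
      have e2 : ∑ j, (β • W) i j * v i * v j = β * ∑ j, W i j * v i * v j := by
        rw [Finset.mul_sum]; refine Finset.sum_congr rfl fun k _ => ?_
        simp only [Matrix.smul_apply, smul_eq_mul]; ring
      have e3 : (β • W) i i * v i * v i = β * (W i i * v i ^ 2) := by
        simp only [Matrix.smul_apply, smul_eq_mul]; ring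
      rw [e2, e3] at this
      linarith
    rw [Finset.sum_congr rfl fun i _ => e1 i, Finset.sum_sub_distrib, ← Finset.mul_sum, ← Finset.mul_sum]
    have b1 := (abs_le.1 (hW.norm v)).2
    have b2 : -(ε * ∑ i, v i ^ 2) ≤ ∑ i, W i i * v i ^ 2 := by
      rw [Finset.mul_sum, ← Finset.sum_neg_distrib]
      refine Finset.sum_le_sum fun i _ => ?_
      have := (abs_le.1 (hW.diag i)).1
      nlinarith [sq_nonneg (v i)]
    have b3 : ∑ i, ∑ j, W i j * v i * v j - ∑ i, W i i * v i ^ 2 ≤ (2 + 2 * ε) * ∑ i, v i ^ 2 := by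
      linarith
    have b4 := mul_le_mul_of_nonneg_left b3 hβ.le
    nlinarith
  have hg2 := gamma2 (β • W) hsym h (β * (2 + 2 * ε)) (β * ε) hβε0.le (by linarith) hJ hrow hspec
  have hnum : 1 - 2 * β - 22 * ε ≤ 1 - β * (2 + 2 * ε) - 40 * (β * (2 + 2 * ε)) * (β * ε) := by
    have c1 : β * ε ≤ ε / 2 := by nlinarith
    have c2 : β * (2 + 2 * ε) ≤ 101 / 100 := by nlinarith
    have c3 : β * (2 + 2 * ε) * (β * ε) ≤ (101 / 100) * (ε / 2) :=
      mul_le_mul c2 c1 hβε0.le (by norm_num)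
    nlinarith
  refine poinc_of_gamma2 (fun x => gibbs_pos (β • W) h x) (gibbs_sum (β • W) h) _ hγ ?_ f
  intro f'
  have hs0 : 0 ≤ ∑ i, FS (gibbs (β • W) h) {i} f' :=
    Finset.sum_nonneg fun i _ => HMain_FS_nonneg _ _ _ _
  exact le_trans (mul_le_mul_of_nonneg_right hnum hs0) (hg2 f')

private theorem HMain_row (β ε : ℝ) (hβ : 0 < β) (hβ1 : β ≤ 1 / 2) (h0 : 0 < ε) (h1 : ε ≤ 1 / 100)
    (hn : 2 ≤ n) (W : Matrix (Fin n) (Fin n) ℝ) (hW : Good W ε) (i : Fin n) :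
    ∑ j, |(β • W) i j| ≤ (n : ℝ) / 2 := by
  have hnR : (2 : ℝ) ≤ n := by exact_mod_cast hn
  have e : ∑ k, ((β • W) i k) ^ 2 = β ^ 2 * ∑ k, W i k ^ 2 := by
    rw [Finset.mul_sum]; refine Finset.sum_congr rfl fun k _ => ?_
    simp [Matrix.smul_apply, mul_pow]
  have a2 := (abs_le.1 (hW.sq i)).2
  have a3 : ∑ k, W i k ^ 2 ≤ 101 / 100 := by linarith
  have a0 : 0 ≤ ∑ k, W i k ^ 2 := Finset.sum_nonneg fun _ _ => sq_nonneg _
  have a5 : β ^ 2 ≤ 1 / 4 := by nlinarith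
  have a6 : ∑ k, ((β • W) i k) ^ 2 ≤ 101 / 400 := by
    rw [e]
    calc β ^ 2 * ∑ k, W i k ^ 2 ≤ (1 / 4) * (101 / 100) := mul_le_mul a5 a3 a0 (by norm_num)
      _ = 101 / 400 := by norm_num
  have hcs : (∑ j, |(β • W) i j|) ^ 2 ≤ n * ∑ j, ((β • W) i j) ^ 2 := by
    have := sq_sum_le_card_mul_sum_sq (s := (Finset.univ : Finset (Fin n))) (f := fun j => |(β • W) i j|)
    simp only [sq_abs, Finset.card_univ, Fintype.card_fin] at this
    exact this
  have h0' : 0 ≤ ∑ j, |(β • W) i j| := Finset.sum_nonneg fun _ _ => abs_nonneg _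
  have h4 : (∑ j, |(β • W) i j|) ^ 2 ≤ ((n : ℝ) / 2) ^ 2 := by
    calc (∑ j, |(β • W) i j|) ^ 2 ≤ n * ∑ j, ((β • W) i j) ^ 2 := hcs
      _ ≤ n * (101 / 400) := by gcongr
      _ ≤ ((n : ℝ) / 2) ^ 2 := by nlinarith
  exact (pow_le_pow_iff_left₀ h0' (by positivity) (by norm_num)).1 h4

theorem main_half (β : ℝ) (hβ : 0 < β) (hβ2 : β < 1 / 2) (δ : ℝ) (hδ : 0 < δ) :
    ∃ (K : ℕ) (A : ∀ n, Set (Smp n)), (∀ n, MeasurableSet (A n)) ∧
      Tendsto (fun n => gauss n (A n)) atTop (𝓝 1) ∧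
      ∀ n, ∀ g ∈ A n, ∀ h : Fin n → ℝ,
        (∀ f : Conf n → ℝ, (1 - 2 * β - δ) * FS (gibbs (β • goe n g) h) Finset.univ f ≤
          ∑ i, FS (gibbs (β • goe n g) h) {i} f) ∧
        MixLE (β • goe n g) h (K * (n : ℝ) ^ 3) := by
  have hb : 0 < 1 - 2 * β := by linarith
  obtain ⟨ε, h0, h1, h2, h3⟩ : ∃ ε : ℝ, 0 < ε ∧ ε ≤ 1 / 100 ∧ 22 * ε ≤ δ ∧ 22 * ε ≤ (1 - 2 * β) / 2 := by
    refine ⟨min (1 / 100) (min δ ((1 - 2 * β) / 2) / 22), ?_, min_le_left _ _, ?_, ?_⟩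
    · refine lt_min (by norm_num) (div_pos (lt_min hδ (by linarith)) (by norm_num))
    · have a1 : min (1 / 100) (min δ ((1 - 2 * β) / 2) / 22) ≤ min δ ((1 - 2 * β) / 2) / 22 := min_le_right _ _
      have a2 : min δ ((1 - 2 * β) / 2) ≤ δ := min_le_left _ _
      linarith
    · have a1 : min (1 / 100) (min δ ((1 - 2 * β) / 2) / 22) ≤ min δ ((1 - 2 * β) / 2) / 22 := min_le_right _ _
      have a2 : min δ ((1 - 2 * β) / 2) ≤ (1 - 2 * β) / 2 := min_le_right _ _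
      linarith
  have hγ : 0 < 1 - 2 * β - 22 * ε := by linarith
  set M : ℝ := 2 / (1 - 2 * β) with hM
  have hM1 : 1 ≤ M := by
    rw [hM, le_div_iff₀ hb]; linarith
  obtain ⟨n0, hn0⟩ := mixH M hM1 ⌈5 * M⌉₊ (Nat.le_ceil _)
  refine ⟨⌈5 * M⌉₊, fun n => if max n0 2 ≤ n then
    {g | Good (goe n g) ε ∧ ∀ i j, |goe n g i j| ≤ ε} else ∅, fun n => ?_, ?_, fun n g hg h => ?_⟩
  · by_cases hn : max n0 2 ≤ n
    · simp only [hn, if_true]; exact good_meas' n ε
    · simp only [hn, if_false]; exact MeasurableSet.empty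
  · refine (good_prob' ε h0).congr' ?_
    filter_upwards [eventually_ge_atTop (max n0 2)] with n hn
    simp only [hn, if_true]
  · by_cases hn : max n0 2 ≤ n
    · simp only [hn, if_true, Set.mem_ofPred_eq] at hg
      obtain ⟨hG, hE⟩ := hg
      have hdet := fun (h : Fin n → ℝ) (f : Conf n → ℝ) =>
        det_half β ε hβ hβ2.le h0 h1 (goe n g) hG hE hγ h f
      have hFS := fun (h : Fin n → ℝ) (f : Conf n → ℝ) =>
        HMain_FS_nonneg (β • goe n g) h Finset.univ f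
      have hsym : (β • goe n g).IsSymm := by
        have := hG.symm
        unfold Matrix.IsSymm at this ⊢
        rw [Matrix.transpose_smul, this]
      refine ⟨fun f => ?_, ?_⟩
      · refine le_trans (mul_le_mul_of_nonneg_right ?_ (hFS h f)) (hdet h f)
        linarith
      · refine hn0 n (le_trans (le_max_left _ _) hn) (β • goe n g) hsym
          (fun i => HMain_row β ε hβ hβ2.le h0 h1 (le_trans (le_max_right _ _) hn) _ hG i) ?_ h
        intro h' f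
        have a1 := hdet h' f
        have a2 := hFS h' f
        have a3 : (1 - 2 * β) / 2 * FS (gibbs (β • goe n g) h') Finset.univ f ≤
            ∑ i, FS (gibbs (β • goe n g) h') {i} f := by
          refine le_trans (mul_le_mul_of_nonneg_right ?_ a2) a1
          linarith
        have a4 : M * ((1 - 2 * β) / 2 * FS (gibbs (β • goe n g) h') Finset.univ f) =
            FS (gibbs (β • goe n g) h') Finset.univ f := by
          rw [hM]; field_simp
        rw [← a4]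
        exact mul_le_mul_of_nonneg_left a3 (by linarith)
    · simp only [hn, if_false] at hg
      exact absurd hg (Set.notMem_empty g)

theorem main_seq (β : ℝ) (hβ : 0 < β) (hβ2 : β < 1 / 2) (h : ∀ n, Fin n → ℝ) :
    Tendsto (fun n => gauss n {g | MixLE (β • goe n g) (h n) ((n : ℝ) ^ 4)}) atTop (𝓝 1) := by
  obtain ⟨K, A, -, hA1, hA2⟩ := main_half β hβ hβ2 1 one_pos
  refine tendsto_of_tendsto_of_tendsto_of_le_of_le' hA1 tendsto_const_nhds ?_ ?_
  · filter_upwards [eventually_ge_atTop K] with n hn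
    refine measure_mono fun g hg => ?_
    obtain ⟨t, ht, hm⟩ := (hA2 n g hg (h n)).2
    refine ⟨t, le_trans ht ?_, hm⟩
    have hK : (K : ℝ) ≤ n := by exact_mod_cast hn
    have : (K : ℝ) * (n : ℝ) ^ 3 ≤ n * (n : ℝ) ^ 3 := mul_le_mul_of_nonneg_right hK (by positivity)
    calc (K : ℝ) * (n : ℝ) ^ 3 ≤ n * (n : ℝ) ^ 3 := this
      _ = (n : ℝ) ^ 4 := by ring
  · exact Eventually.of_forall fun n => by
      have : IsProbabilityMeasure (gauss n) := by unfold gauss; infer_instance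
      exact prob_le_one

end SKG
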