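import Pool.Agent.Lib.MP_c42713_prH.HDefs
import Pool.Agent.Lib.MP_c42713_prH.HExp
import Pool.Agent.Lib.MP_c42713_pr.MMin
import Pool.Agent.Lib.MP_c42713_pr.MClip

/-!
# the pair inequality for the Gibbs measure
-/

namespace SKG

variable {n : ℕ}

private theorem HPair_flip (i : Fin n) (F : Conf n → ℝ) :
    2 * ∑ x, F x = ∑ x, (F (Function.update x i true) + F (Function.update x i false)) := by
  have hinv : ∀ x : Conf n, Function.update (Function.update x i (!x i)) i
      (!(Function.update x i (!x i)) i) = x := by
    intro x
    rw [Function.update_idem, Function.update_self, Bool.not_not, Function.update_eq_self]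
  have h1 : ∑ x : Conf n, F (Function.update x i (!x i)) = ∑ x, F x := by
    refine Finset.sum_nbij' (fun x => Function.update x i (!x i)) (fun x => Function.update x i (!x i))
      (fun _ _ => Finset.mem_univ _) (fun _ _ => Finset.mem_univ _) (fun x _ => hinv x)
      (fun x _ => hinv x) (fun _ _ => rfl)
  have h2 : ∀ x : Conf n, F (Function.update x i true) + F (Function.update x i false) =
      F x + F (Function.update x i (!x i)) := by
    intro x
    rcases hx : x i with _ | _
    · have e : Function.update x i false = x := by
        rw [← hx, Function.update_eq_self]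
      rw [e, Bool.not_false, add_comm]
    · have e : Function.update x i true = x := by
        rw [← hx, Function.update_eq_self]
      rw [e, Bool.not_true]
  rw [Finset.sum_congr rfl fun x _ => h2 x, Finset.sum_add_distrib, h1]
  ring

/-- sum over two coordinates -/
theorem sum_two (i j : Fin n) (hij : i ≠ j) (F : Conf n → ℝ) :
    4 * ∑ x, F x = ∑ x, (F (Function.update (Function.update x i true) j true) +
      F (Function.update (Function.update x i true) j false) +
      F (Function.update (Function.update x i false) j true) +
      F (Function.update (Function.update x i false) j false)) := by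
  have h1 := HPair_flip j F
  have h2 := HPair_flip i (fun x => F (Function.update x j true) + F (Function.update x j false))
  have h3 : 4 * ∑ x, F x = 2 * (2 * ∑ x, F x) := by ring
  rw [h3, h1, h2]
  refine Finset.sum_congr rfl fun x _ => ?_
  ring

private theorem HPair_lfd (J : Matrix (Fin n) (Fin n) ℝ) (h : Fin n → ℝ) (i : Fin n) (x : Conf n)
    (b : Bool) : lfd J h i (Function.update x i b) = lfd J h i x := by
  unfold lfd
  congr 1
  refine Finset.sum_congr rfl fun j hj => ?_
  rw [Function.update_of_ne (Finset.ne_of_mem_erase hj)]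

private theorem HPair_Dd (f : Conf n → ℝ) (i : Fin n) (x : Conf n) (b : Bool) :
    Dd f i (Function.update x i b) = Dd f i x := by
  unfold Dd
  rw [Function.update_idem, Function.update_idem]

private theorem HPair_tanh (l : ℝ) :
    Real.tanh l = (Real.exp (2 * l) - 1) / (Real.exp (2 * l) + 1) := by
  have h1 : Real.exp (2 * l) = Real.exp l * Real.exp l := by
    rw [← Real.exp_add]
    congr 1
    ring
  have h2 : Real.exp l * Real.exp (-l) = 1 := by
    rw [← Real.exp_add, add_neg_cancel, Real.exp_zero]
  have h3 : 0 < Real.exp l := Real.exp_pos l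
  have h4 : 0 < Real.exp (-l) := Real.exp_pos _
  rw [Real.tanh_eq, div_eq_div_iff (by positivity) (by positivity), h1]
  linear_combination (-2 * Real.exp l) * h2

private theorem HPair_ratio (J : Matrix (Fin n) (Fin n) ℝ) (hs : J.IsSymm) (h : Fin n → ℝ)
    (i : Fin n) (x : Conf n) :
    gibbs J h (Function.update x i true) =
      Real.exp (2 * lfd J h i x) * gibbs J h (Function.update x i false) := by
  unfold gibbs
  rw [wt_ratio J hs h x i, mul_div_assoc]
  rfl

theorem sub_cE (J : Matrix (Fin n) (Fin n) ℝ) (hs : J.IsSymm) (h : Fin n → ℝ) (i : Fin n)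
    (f : Conf n → ℝ) (x : Conf n) :
    f x - cE (gibbs J h) {i} f x = (sg (x i) - th J h i x) * Dd f i x := by
  have hE : 0 < Real.exp (2 * lfd J h i x) := Real.exp_pos _
  have hm : 0 < gibbs J h (Function.update x i false) := gibbs_pos J h _
  have hr := HPair_ratio J hs h i x
  have hc : cE (gibbs J h) {i} f x =
      (Real.exp (2 * lfd J h i x) * f (Function.update x i true) + f (Function.update x i false)) /
        (Real.exp (2 * lfd J h i x) + 1) := by
    rw [MGl_cE, hr, div_eq_div_iff (by positivity) (by positivity)]
    ring
  have ht : th J h i x = (Real.exp (2 * lfd J h i x) - 1) / (Real.exp (2 * lfd J h i x) + 1) :=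
    HPair_tanh _
  rw [hc, ht]
  unfold Dd
  have hE1 : Real.exp (2 * lfd J h i x) + 1 ≠ 0 := by positivity
  rcases hx : x i with _ | _
  · have e : Function.update x i false = x := by
      rw [← hx, Function.update_eq_self]
    have s : sg false = -1 := rfl
    rw [e, s]
    field_simp
    ring
  · have e : Function.update x i true = x := by
      rw [← hx, Function.update_eq_self]
    have s : sg true = 1 := rfl
    rw [e, s]
    field_simp
    ring

/-- single site identity -/
theorem FS_single (J : Matrix (Fin n) (Fin n) ℝ) (hs : J.IsSymm) (h : Fin n → ℝ) (i : Fin n)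
    (f : Conf n → ℝ) :
    FS (gibbs J h) {i} f = ∑ x, gibbs J h x * (sc J h i x * Dd f i x ^ 2) := by
  unfold FS
  have h1 : ∀ x, gibbs J h x * (f x - cE (gibbs J h) {i} f x) ^ 2 =
      gibbs J h x * ((sg (x i) - th J h i x) * Dd f i x) ^ 2 := by
    intro x
    rw [sub_cE J hs h i f x]
  rw [Finset.sum_congr rfl fun x _ => h1 x]
  have h2 := HPair_flip i (fun x => gibbs J h x * ((sg (x i) - th J h i x) * Dd f i x) ^ 2)
  have h3 := HPair_flip i (fun x => gibbs J h x * (sc J h i x * Dd f i x ^ 2))
  have h4 : ∑ x, (gibbs J h (Function.update x i true) *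
        ((sg ((Function.update x i true) i) - th J h i (Function.update x i true)) *
          Dd f i (Function.update x i true)) ^ 2 +
      gibbs J h (Function.update x i false) *
        ((sg ((Function.update x i false) i) - th J h i (Function.update x i false)) *
          Dd f i (Function.update x i false)) ^ 2) =
      ∑ x, (gibbs J h (Function.update x i true) *
        (sc J h i (Function.update x i true) * Dd f i (Function.update x i true) ^ 2) +
      gibbs J h (Function.update x i false) *
        (sc J h i (Function.update x i false) * Dd f i (Function.update x i false) ^ 2)) := by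
    refine Finset.sum_congr rfl fun x _ => ?_
    have hr := HPair_ratio J hs h i x
    have ht : Real.tanh (lfd J h i x) =
      (Real.exp (2 * lfd J h i x) - 1) / (Real.exp (2 * lfd J h i x) + 1) := HPair_tanh _
    have hE1 : Real.exp (2 * lfd J h i x) + 1 ≠ 0 := by positivity
    have s : sg false = -1 := rfl
    have s' : sg true = 1 := rfl
    simp only [sc, th, HPair_lfd, HPair_Dd, Function.update_self, s, s']
    rw [hr, ht]
    field_simp
    ring
  have h5 : 2 * ∑ x, gibbs J h x * ((sg (x i) - th J h i x) * Dd f i x) ^ 2 =
      2 * ∑ x, gibbs J h x * (sc J h i x * Dd f i x ^ 2) := h2.trans (h4.trans h3.symm)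
  linarith

/-- the conditional field without the contribution of `j` -/
private noncomputable def HPairB_A (J : Matrix (Fin n) (Fin n) ℝ) (h : Fin n → ℝ) (i j : Fin n)
    (x : Conf n) : ℝ :=
  (∑ k ∈ (Finset.univ.erase i).erase j, J i k * sg (x k)) + h i

private theorem HPairB_lfd_i (J : Matrix (Fin n) (Fin n) ℝ) (h : Fin n → ℝ) (i j : Fin n)
    (hij : i ≠ j) (x : Conf n) (a b : Bool) :
    lfd J h i (Function.update (Function.update x i a) j b) =
      HPairB_A J h i j x + J i j * sg b := by
  unfold lfd HPairB_A
  have hj : j ∈ Finset.univ.erase i := Finset.mem_erase.2 ⟨hij.symm, Finset.mem_univ j⟩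
  rw [← Finset.add_sum_erase _ _ hj, Function.update_self]
  have h1 : ∑ k ∈ (Finset.univ.erase i).erase j,
      J i k * sg (Function.update (Function.update x i a) j b k) =
      ∑ k ∈ (Finset.univ.erase i).erase j, J i k * sg (x k) := by
    refine Finset.sum_congr rfl fun k hk => ?_
    have hk1 := Finset.ne_of_mem_erase hk
    have hk2 := Finset.ne_of_mem_erase (Finset.mem_of_mem_erase hk)
    rw [Function.update_of_ne hk1, Function.update_of_ne hk2]
  rw [h1]
  ring

private theorem HPairB_comm (i j : Fin n) (hij : i ≠ j) (x : Conf n) (a b : Bool) :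
    Function.update (Function.update x i a) j b = Function.update (Function.update x j b) i a :=
  Function.update_comm hij a b x

private theorem HPairB_lfd_j (J : Matrix (Fin n) (Fin n) ℝ) (hs : J.IsSymm) (h : Fin n → ℝ)
    (i j : Fin n) (hij : i ≠ j) (x : Conf n) (a b : Bool) :
    lfd J h j (Function.update (Function.update x i a) j b) =
      HPairB_A J h j i x + J i j * sg a := by
  rw [HPairB_comm i j hij, HPairB_lfd_i J h j i hij.symm, hs.apply i j]

private theorem HPairB_upd_i (i j : Fin n) (hij : i ≠ j) (x : Conf n) (a b s : Bool) :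
    Function.update (Function.update (Function.update x i a) j b) i s =
      Function.update (Function.update x i s) j b := by
  rw [HPairB_comm i j hij x a b, Function.update_idem, ← HPairB_comm i j hij]

private theorem HPairB_upd_j (i j : Fin n) (x : Conf n) (a b s : Bool) :
    Function.update (Function.update (Function.update x i a) j b) j s =
      Function.update (Function.update x i a) j s := Function.update_idem _ _ _

private theorem HPairB_wt (J : Matrix (Fin n) (Fin n) ℝ) (hs : J.IsSymm) (h : Fin n → ℝ)
    (i : Fin n) (x : Conf n) :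
    wt J h (Function.update x i true) =
      Real.exp (2 * lfd J h i x) * wt J h (Function.update x i false) :=
  wt_ratio J hs h x i

private theorem HPairB_gibbs (J : Matrix (Fin n) (Fin n) ℝ) (hs : J.IsSymm) (h : Fin n → ℝ)
    (i j : Fin n) (hij : i ≠ j) (x : Conf n) :
    ∃ c : ℝ, 0 ≤ c ∧ ∀ a b : Bool,
      gibbs J h (Function.update (Function.update x i a) j b) =
        c * Real.exp (HPairB_A J h i j x * sg a + HPairB_A J h j i x * sg b +
          J i j * sg a * sg b) := by
  set A0 := HPairB_A J h i j x with hA0
  set B0 := HPairB_A J h j i x with hB0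
  have ht : sg true = 1 := rfl
  have hf : sg false = -1 := rfl
  have r1 := HPairB_wt J hs h i (Function.update (Function.update x i true) j false)
  rw [HPairB_lfd_i J h i j hij, HPairB_upd_i i j hij, HPairB_upd_i i j hij, ← hA0, hf] at r1
  have r2 := HPairB_wt J hs h j (Function.update (Function.update x i false) j false)
  rw [HPairB_lfd_j J hs h i j hij, HPairB_upd_j, HPairB_upd_j, ← hB0, hf] at r2
  have r3 := HPairB_wt J hs h j (Function.update (Function.update x i true) j false)
  rw [HPairB_lfd_j J hs h i j hij, HPairB_upd_j, HPairB_upd_j, ← hB0, ht] at r3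
  refine ⟨wt J h (Function.update (Function.update x i false) j false) *
    Real.exp (A0 + B0 - J i j) / ∑ y, wt J h y, ?_, ?_⟩
  · exact div_nonneg (mul_nonneg (MMin_wt_pos J h _).le (Real.exp_pos _).le) (MMin_Z_pos J h).le
  · intro a b
    unfold gibbs
    rw [div_mul_eq_mul_div]
    congr 1
    rcases a with _ | _ <;> rcases b with _ | _
    · rw [hf, mul_assoc, ← Real.exp_add]
      have e : A0 + B0 - J i j + (A0 * -1 + B0 * -1 + J i j * -1 * -1) = 0 := by ring
      rw [e, Real.exp_zero, mul_one]
    · rw [hf, ht, r2, mul_assoc, ← Real.exp_add, mul_comm]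
      congr 2
      ring
    · rw [hf, ht, r1, mul_assoc, ← Real.exp_add, mul_comm]
      congr 2
      ring
    · rw [ht, r3, r1, mul_assoc, ← Real.exp_add, ← mul_assoc, ← Real.exp_add, mul_comm]
      congr 2
      ring

private theorem HPairB_form (J : Matrix (Fin n) (Fin n) ℝ) (hs : J.IsSymm) (h : Fin n → ℝ)
    (i j : Fin n) (hij : i ≠ j) (f : Conf n → ℝ) (x : Conf n) :
    ∃ c A0 B0 c1 c2 c12 : ℝ, 0 ≤ c ∧ ∀ a b : Bool,
      (fun x => gibbs J h x *
      ((f x - cE (gibbs J h) {i} f x) * (f x - cE (gibbs J h) {j} f x) +
      J i j * ((sc J h i x * Dd f i x) * (sc J h j x * Dd f j x)) +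
      J i j ^ 2 * ((1 - sc J h i x) * sc J h i x * Dd f i x ^ 2 +
        (1 - sc J h j x) * sc J h j x * Dd f j x ^ 2) +
      40 * |J i j| ^ 3 * (sc J h i x * Dd f i x ^ 2 + sc J h j x * Dd f j x ^ 2)))
        (Function.update (Function.update x i a) j b) =
      c * eF A0 B0 (J i j) c1 c2 c12 (sg a) (sg b) := by
  obtain ⟨c, hc, hg⟩ := HPairB_gibbs J hs h i j hij x
  set F : Bool → Bool → ℝ := fun a b => f (Function.update (Function.update x i a) j b) with hF
  refine ⟨c, HPairB_A J h i j x, HPairB_A J h j i x,
    (F true true + F true false - F false true - F false false) / 4,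
    (F true true - F true false + F false true - F false false) / 4,
    (F true true - F true false - F false true + F false false) / 4, hc, fun a b => ?_⟩
  have hDi : Dd f i (Function.update (Function.update x i a) j b) =
      (F true true + F true false - F false true - F false false) / 4 +
        (F true true - F true false - F false true + F false false) / 4 * sg b := by
    unfold Dd
    rw [HPairB_upd_i i j hij, HPairB_upd_i i j hij]
    rcases b with _ | _
    · have hf : sg false = -1 := rfl
      rw [hf]
      simp only [hF]
      ring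
    · have ht : sg true = 1 := rfl
      rw [ht]
      simp only [hF]
      ring
  have hDj : Dd f j (Function.update (Function.update x i a) j b) =
      (F true true - F true false + F false true - F false false) / 4 +
        (F true true - F true false - F false true + F false false) / 4 * sg a := by
    unfold Dd
    rw [HPairB_upd_j, HPairB_upd_j]
    rcases a with _ | _
    · have hf : sg false = -1 := rfl
      rw [hf]
      simp only [hF]
      ring
    · have ht : sg true = 1 := rfl
      rw [ht]
      simp only [hF]
      ring
  dsimp only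
  rw [sub_cE J hs h i f, sub_cE J hs h j f, hg a b, hDi, hDj]
  unfold sc th
  rw [HPairB_lfd_i J h i j hij, HPairB_lfd_j J hs h i j hij, Function.update_self,
    Function.update_of_ne hij, Function.update_self]
  unfold eF
  ring

/-- the pair inequality -/
theorem pair_ineq (J : Matrix (Fin n) (Fin n) ℝ) (hs : J.IsSymm) (h : Fin n → ℝ) (i j : Fin n)
    (hij : i ≠ j) (hJ : |J i j| ≤ 1 / 20) (f : Conf n → ℝ) :
    0 ≤ ∑ x, gibbs J h x * ((f x - cE (gibbs J h) {i} f x) * (f x - cE (gibbs J h) {j} f x) +
      J i j * ((sc J h i x * Dd f i x) * (sc J h j x * Dd f j x)) +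
      J i j ^ 2 * ((1 - sc J h i x) * sc J h i x * Dd f i x ^ 2 +
        (1 - sc J h j x) * sc J h j x * Dd f j x ^ 2) +
      40 * |J i j| ^ 3 * (sc J h i x * Dd f i x ^ 2 + sc J h j x * Dd f j x ^ 2)) := by
  have hkey := sum_two i j hij (fun x => gibbs J h x *
      ((f x - cE (gibbs J h) {i} f x) * (f x - cE (gibbs J h) {j} f x) +
      J i j * ((sc J h i x * Dd f i x) * (sc J h j x * Dd f j x)) +
      J i j ^ 2 * ((1 - sc J h i x) * sc J h i x * Dd f i x ^ 2 +
        (1 - sc J h j x) * sc J h j x * Dd f j x ^ 2) +
      40 * |J i j| ^ 3 * (sc J h i x * Dd f i x ^ 2 + sc J h j x * Dd f j x ^ 2)))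
  have h4 : 0 ≤ 4 * ∑ x, gibbs J h x *
      ((f x - cE (gibbs J h) {i} f x) * (f x - cE (gibbs J h) {j} f x) +
      J i j * ((sc J h i x * Dd f i x) * (sc J h j x * Dd f j x)) +
      J i j ^ 2 * ((1 - sc J h i x) * sc J h i x * Dd f i x ^ 2 +
        (1 - sc J h j x) * sc J h j x * Dd f j x ^ 2) +
      40 * |J i j| ^ 3 * (sc J h i x * Dd f i x ^ 2 + sc J h j x * Dd f j x ^ 2)) := by
    refine le_of_le_of_eq (Finset.sum_nonneg fun x _ => ?_) hkey.symm
    obtain ⟨c, A0, B0, c1, c2, c12, hc, H⟩ := HPairB_form J hs h i j hij f x
    have ht : sg true = 1 := rfl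
    have hf : sg false = -1 := rfl
    have e1 := H true true
    have e2 := H true false
    have e3 := H false true
    have e4 := H false false
    rw [ht] at e1 e2 e3
    rw [hf] at e2 e3 e4
    have h2 := two_spin_exp A0 B0 (J i j) c1 c2 c12 hJ
    dsimp only at e1 e2 e3 e4 ⊢
    rw [e1, e2, e3, e4, ← mul_add, ← mul_add, ← mul_add]
    exact mul_nonneg hc h2
  linarith

end SKG
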