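import Pool.Agent.Lib.MP_c42713_prH.HPair

/-!
# the second order inequality

`(∑ i, δ_i f)² = ∑ i, (δ_i f)² + ∑_{i ≠ j} δ_i f δ_j f`, `FS μ {i} f = ∑ μ (δ_i f)²` (definition of `FS`) `= ∑ μ s_i (D_i f)²` (`FS_single`); for `i ≠ j` use `pair_ineq`. Let `g_i = s_i D_i f`, `e_i = s_i (D_i f)²` (so `g_i² = s_i e_i`).
`∑_{i≠j} J_ij g_i g_j ≤ Λ ∑ s_i e_i` pointwise; `∑_{i≠j} J_ij² ((1 - s_i) e_i + (1 - s_j) e_j) = 2 ∑_i (∑_{j≠i} J_ij²) (1 - s_i) e_i ≤ Λ ∑ (1 - s_i) e_i` (symmetry of `J`), the cubic term is `≤ 2 · 40 m ∑_i (∑_{j≠i} J_ij²) e_i ≤ 40 Λ m ∑ e_i`.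
-/

namespace SKG

variable {n : ℕ}

private theorem HSum_swap (J : Matrix (Fin n) (Fin n) ℝ) (hs : J.IsSymm) (e : Fin n → ℝ) :
    ∑ i, ∑ j ∈ Finset.univ.erase i, J i j ^ 2 * (e i + e j) =
      ∑ i, (2 * ∑ j ∈ Finset.univ.erase i, J i j ^ 2) * e i := by
  have h1 : ∑ i, ∑ j ∈ Finset.univ.erase i, J i j ^ 2 * e j =
      ∑ i, ∑ j ∈ Finset.univ.erase i, J i j ^ 2 * e i := by
    rw [Finset.sum_comm' (s := Finset.univ) (t := fun i => Finset.univ.erase i)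
      (t' := Finset.univ) (s' := fun j => Finset.univ.erase j)]
    · refine Finset.sum_congr rfl fun i _ => Finset.sum_congr rfl fun j _ => ?_
      rw [hs.apply i j]
    · intro i j
      simp only [Finset.mem_erase, Finset.mem_univ, and_true, true_and, ne_eq]
      exact ⟨fun h h' => h h'.symm, fun h h' => h h'.symm⟩
  calc ∑ i, ∑ j ∈ Finset.univ.erase i, J i j ^ 2 * (e i + e j)
      = ∑ i, ∑ j ∈ Finset.univ.erase i, J i j ^ 2 * e i +
        ∑ i, ∑ j ∈ Finset.univ.erase i, J i j ^ 2 * e j := by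
        rw [← Finset.sum_add_distrib]
        refine Finset.sum_congr rfl fun i _ => ?_
        rw [← Finset.sum_add_distrib]
        refine Finset.sum_congr rfl fun j _ => ?_
        ring
    _ = ∑ i, (2 * ∑ j ∈ Finset.univ.erase i, J i j ^ 2) * e i := by
        rw [h1, ← Finset.sum_add_distrib]
        refine Finset.sum_congr rfl fun i _ => ?_
        rw [← Finset.sum_mul]
        ring

private theorem HSum_swap_le (J : Matrix (Fin n) (Fin n) ℝ) (hs : J.IsSymm) (e : Fin n → ℝ) (Λ : ℝ)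
    (he : ∀ i, 0 ≤ e i) (hrow : ∀ i, 2 * ∑ j ∈ Finset.univ.erase i, J i j ^ 2 ≤ Λ) :
    ∑ i, ∑ j ∈ Finset.univ.erase i, J i j ^ 2 * (e i + e j) ≤ Λ * ∑ i, e i := by
  rw [HSum_swap J hs e, Finset.mul_sum]
  exact Finset.sum_le_sum fun i _ => mul_le_mul_of_nonneg_right (hrow i) (he i)

private theorem HSum_sc (J : Matrix (Fin n) (Fin n) ℝ) (h : Fin n → ℝ) (i : Fin n) (x : Conf n) :
    0 ≤ sc J h i x ∧ sc J h i x ≤ 1 := by
  unfold sc th
  have h1 := Real.tanh_lt_one (lfd J h i x)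
  have h2 := Real.neg_one_lt_tanh (lfd J h i x)
  constructor
  · nlinarith
  · nlinarith [sq_nonneg (Real.tanh (lfd J h i x))]

/-- the pointwise inequality -/
private theorem HSum_point (J : Matrix (Fin n) (Fin n) ℝ) (hs : J.IsSymm) (Λ m : ℝ)
    (hm0 : 0 ≤ m) (hJ : ∀ i j, i ≠ j → |J i j| ≤ m)
    (hrow : ∀ i, 2 * ∑ j ∈ Finset.univ.erase i, J i j ^ 2 ≤ Λ)
    (hspec : ∀ v : Fin n → ℝ, ∑ i, ∑ j ∈ Finset.univ.erase i, J i j * v i * v j ≤ Λ * ∑ i, v i ^ 2)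
    (σ δ : Fin n → ℝ) (h0 : ∀ i, 0 ≤ σ i) (h1 : ∀ i, σ i ≤ 1) :
    ∑ i, ∑ j ∈ Finset.univ.erase i, (J i j * ((σ i * δ i) * (σ j * δ j)) +
      J i j ^ 2 * ((1 - σ i) * σ i * δ i ^ 2 + (1 - σ j) * σ j * δ j ^ 2) +
      40 * |J i j| ^ 3 * (σ i * δ i ^ 2 + σ j * δ j ^ 2)) ≤
      (Λ + 40 * Λ * m) * ∑ i, σ i * δ i ^ 2 := by
  have a1 : ∑ i, ∑ j ∈ Finset.univ.erase i, J i j * ((σ i * δ i) * (σ j * δ j)) ≤
      Λ * ∑ i, (σ i * δ i) ^ 2 := by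
    refine le_trans (le_of_eq ?_) (hspec fun i => σ i * δ i)
    refine Finset.sum_congr rfl fun i _ => Finset.sum_congr rfl fun j _ => ?_
    ring
  have a2 : ∑ i, ∑ j ∈ Finset.univ.erase i,
      J i j ^ 2 * ((1 - σ i) * σ i * δ i ^ 2 + (1 - σ j) * σ j * δ j ^ 2) ≤
      Λ * ∑ i, (1 - σ i) * σ i * δ i ^ 2 :=
    HSum_swap_le J hs (fun i => (1 - σ i) * σ i * δ i ^ 2) Λ
      (fun i => mul_nonneg (mul_nonneg (sub_nonneg.2 (h1 i)) (h0 i)) (sq_nonneg _)) hrow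
  have a3' : ∑ i, ∑ j ∈ Finset.univ.erase i, J i j ^ 2 * (σ i * δ i ^ 2 + σ j * δ j ^ 2) ≤
      Λ * ∑ i, σ i * δ i ^ 2 :=
    HSum_swap_le J hs (fun i => σ i * δ i ^ 2) Λ
      (fun i => mul_nonneg (h0 i) (sq_nonneg _)) hrow
  have a3 : ∑ i, ∑ j ∈ Finset.univ.erase i, 40 * |J i j| ^ 3 * (σ i * δ i ^ 2 + σ j * δ j ^ 2) ≤
      40 * m * (Λ * ∑ i, σ i * δ i ^ 2) := by
    refine le_trans ?_ (mul_le_mul_of_nonneg_left a3' (by positivity))
    rw [Finset.mul_sum]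
    refine Finset.sum_le_sum fun i _ => ?_
    rw [Finset.mul_sum]
    refine Finset.sum_le_sum fun j hj => ?_
    have hij : i ≠ j := fun h => (Finset.ne_of_mem_erase hj) h.symm
    have hc : |J i j| ^ 3 ≤ m * J i j ^ 2 := by
      rw [pow_succ' |J i j| 2, sq_abs]
      exact mul_le_mul_of_nonneg_right (hJ i j hij) (sq_nonneg _)
    have hp : 0 ≤ σ i * δ i ^ 2 + σ j * δ j ^ 2 :=
      add_nonneg (mul_nonneg (h0 i) (sq_nonneg _)) (mul_nonneg (h0 j) (sq_nonneg _))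
    calc 40 * |J i j| ^ 3 * (σ i * δ i ^ 2 + σ j * δ j ^ 2)
        ≤ 40 * (m * J i j ^ 2) * (σ i * δ i ^ 2 + σ j * δ j ^ 2) :=
          mul_le_mul_of_nonneg_right (by linarith) hp
      _ = 40 * m * (J i j ^ 2 * (σ i * δ i ^ 2 + σ j * δ j ^ 2)) := by ring
  have a4 : ∑ i, (σ i * δ i) ^ 2 + ∑ i, (1 - σ i) * σ i * δ i ^ 2 = ∑ i, σ i * δ i ^ 2 := by
    rw [← Finset.sum_add_distrib]
    refine Finset.sum_congr rfl fun i _ => ?_
    ring
  have a5 : Λ * ∑ i, (σ i * δ i) ^ 2 + Λ * ∑ i, (1 - σ i) * σ i * δ i ^ 2 =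
      Λ * ∑ i, σ i * δ i ^ 2 := by
    rw [← a4]; ring
  have a6 : ∑ i, ∑ j ∈ Finset.univ.erase i, (J i j * ((σ i * δ i) * (σ j * δ j)) +
      J i j ^ 2 * ((1 - σ i) * σ i * δ i ^ 2 + (1 - σ j) * σ j * δ j ^ 2) +
      40 * |J i j| ^ 3 * (σ i * δ i ^ 2 + σ j * δ j ^ 2)) =
      ∑ i, ∑ j ∈ Finset.univ.erase i, J i j * ((σ i * δ i) * (σ j * δ j)) +
      ∑ i, ∑ j ∈ Finset.univ.erase i,
        J i j ^ 2 * ((1 - σ i) * σ i * δ i ^ 2 + (1 - σ j) * σ j * δ j ^ 2) +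
      ∑ i, ∑ j ∈ Finset.univ.erase i, 40 * |J i j| ^ 3 * (σ i * δ i ^ 2 + σ j * δ j ^ 2) := by
    rw [← Finset.sum_add_distrib, ← Finset.sum_add_distrib]
    refine Finset.sum_congr rfl fun i _ => ?_
    rw [← Finset.sum_add_distrib, ← Finset.sum_add_distrib]
  rw [a6]
  linarith

theorem gamma2 (J : Matrix (Fin n) (Fin n) ℝ) (hs : J.IsSymm) (h : Fin n → ℝ) (Λ m : ℝ)
    (hm0 : 0 ≤ m) (hm : m ≤ 1 / 20) (hJ : ∀ i j, i ≠ j → |J i j| ≤ m)
    (hrow : ∀ i, 2 * ∑ j ∈ Finset.univ.erase i, J i j ^ 2 ≤ Λ)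
    (hspec : ∀ v : Fin n → ℝ, ∑ i, ∑ j ∈ Finset.univ.erase i, J i j * v i * v j ≤ Λ * ∑ i, v i ^ 2)
    (f : Conf n → ℝ) :
    (1 - Λ - 40 * Λ * m) * ∑ i, FS (gibbs J h) {i} f ≤
      ∑ x, gibbs J h x * (∑ i, (f x - cE (gibbs J h) {i} f x)) ^ 2 := by
  have hμ : ∀ x, 0 ≤ gibbs J h x := fun x => (gibbs_pos J h x).le
  set d : Fin n → Conf n → ℝ := fun i x => f x - cE (gibbs J h) {i} f x with hd
  set R : Conf n → Fin n → Fin n → ℝ := fun x i j =>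
    J i j * ((sc J h i x * Dd f i x) * (sc J h j x * Dd f j x)) +
      J i j ^ 2 * ((1 - sc J h i x) * sc J h i x * Dd f i x ^ 2 +
        (1 - sc J h j x) * sc J h j x * Dd f j x ^ 2) +
      40 * |J i j| ^ 3 * (sc J h i x * Dd f i x ^ 2 + sc J h j x * Dd f j x ^ 2) with hR
  -- sum of the pair inequalities
  have h1 : 0 ≤ ∑ i, ∑ j ∈ Finset.univ.erase i, ∑ x, gibbs J h x * (d i x * d j x + R x i j) := by
    refine Finset.sum_nonneg fun i _ => Finset.sum_nonneg fun j hj => ?_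
    have hij : i ≠ j := fun h' => (Finset.ne_of_mem_erase hj) h'.symm
    refine le_trans (pair_ineq J hs h i j hij (le_trans (hJ i j hij) hm) f) (le_of_eq ?_)
    refine Finset.sum_congr rfl fun x _ => ?_
    simp only [hd, hR]
    ring
  have h2 : ∑ i, ∑ j ∈ Finset.univ.erase i, ∑ x, gibbs J h x * (d i x * d j x + R x i j) =
      ∑ x, gibbs J h x * (∑ i, ∑ j ∈ Finset.univ.erase i, d i x * d j x) +
        ∑ x, gibbs J h x * (∑ i, ∑ j ∈ Finset.univ.erase i, R x i j) := by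
    rw [← Finset.sum_add_distrib]
    have e1 : ∀ i, ∑ j ∈ Finset.univ.erase i, ∑ x, gibbs J h x * (d i x * d j x + R x i j) =
        ∑ x, ∑ j ∈ Finset.univ.erase i, gibbs J h x * (d i x * d j x + R x i j) :=
      fun i => Finset.sum_comm
    rw [Finset.sum_congr rfl fun i _ => e1 i, Finset.sum_comm]
    refine Finset.sum_congr rfl fun x _ => ?_
    rw [← mul_add, ← Finset.sum_add_distrib, Finset.mul_sum]
    refine Finset.sum_congr rfl fun i _ => ?_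
    rw [← Finset.sum_add_distrib, Finset.mul_sum]
  have h3 : ∑ x, gibbs J h x * (∑ i, ∑ j ∈ Finset.univ.erase i, R x i j) ≤
      ∑ x, gibbs J h x * ((Λ + 40 * Λ * m) * ∑ i, sc J h i x * Dd f i x ^ 2) := by
    refine Finset.sum_le_sum fun x _ => mul_le_mul_of_nonneg_left ?_ (hμ x)
    exact HSum_point J hs Λ m hm0 hJ hrow hspec (fun i => sc J h i x) (fun i => Dd f i x)
      (fun i => (HSum_sc J h i x).1) (fun i => (HSum_sc J h i x).2)
  have h4 : ∑ x, gibbs J h x * ((Λ + 40 * Λ * m) * ∑ i, sc J h i x * Dd f i x ^ 2) =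
      (Λ + 40 * Λ * m) * ∑ i, FS (gibbs J h) {i} f := by
    have e1 : ∑ i, FS (gibbs J h) {i} f =
        ∑ i, ∑ x, gibbs J h x * (sc J h i x * Dd f i x ^ 2) :=
      Finset.sum_congr rfl fun i _ => FS_single J hs h i f
    rw [e1, Finset.sum_comm, Finset.mul_sum]
    refine Finset.sum_congr rfl fun x _ => ?_
    rw [← Finset.mul_sum]
    ring
  have h5 : ∑ x, gibbs J h x * (∑ i, d i x) ^ 2 =
      ∑ i, FS (gibbs J h) {i} f +
        ∑ x, gibbs J h x * (∑ i, ∑ j ∈ Finset.univ.erase i, d i x * d j x) := by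
    have e1 : ∑ i, FS (gibbs J h) {i} f = ∑ x, gibbs J h x * ∑ i, d i x ^ 2 := by
      have e2 : ∑ i, FS (gibbs J h) {i} f = ∑ i, ∑ x, gibbs J h x * d i x ^ 2 :=
        Finset.sum_congr rfl fun i _ => rfl
      rw [e2, Finset.sum_comm]
      refine Finset.sum_congr rfl fun x _ => ?_
      rw [← Finset.mul_sum]
    rw [e1, ← Finset.sum_add_distrib]
    refine Finset.sum_congr rfl fun x _ => ?_
    rw [← mul_add, ← Finset.sum_add_distrib]
    congr 1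
    rw [sq, Finset.sum_mul]
    refine Finset.sum_congr rfl fun i _ => ?_
    rw [Finset.mul_sum, ← Finset.add_sum_erase Finset.univ _ (Finset.mem_univ i)]
    ring
  have h6 : ∑ x, gibbs J h x * (∑ i, (f x - cE (gibbs J h) {i} f x)) ^ 2 =
      ∑ x, gibbs J h x * (∑ i, d i x) ^ 2 := rfl
  rw [h6, h5]
  rw [h2] at h1
  rw [h4] at h3
  have h7 : (1 - Λ - 40 * Λ * m) * ∑ i, FS (gibbs J h) {i} f =
      ∑ i, FS (gibbs J h) {i} f - (Λ + 40 * Λ * m) * ∑ i, FS (gibbs J h) {i} f := by ring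
  rw [h7]
  linarith

end SKG
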